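import Mathlib

/-!
# MP_3119c3_an: a symmetric matrix that is no Clark matrix of a truncated Toeplitz operator

The matrix `M` with rows `(0, 1, 0)`, `(1, 0, i)`, `(0, i, 0)` is unitarily equivalent to the
truncated Toeplitz operator with symbol `√2 z` on the model space of `z ^ 3`. The off-diagonal
entries of the matrix of a truncated Toeplitz operator in a modified Aleksandrov-Clark basis of a
three-dimensional model space satisfy a linear relation with real nonzero coefficients; those of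
`M` do not.
-/

set_option autoImplicit false

open MeasureTheory Complex ComplexConjugate AddCircle

namespace Pool.Agent.Results.MP_3119c3_an.NotClark

/-! ### the definitions used in the statement -/

/-- normalised arc length measure on the unit circle, parametrised by `ℝ/ℤ` -/
noncomputable def μ : Measure (AddCircle (1 : ℝ)) := haarAddCircle

instance : IsProbabilityMeasure μ := inferInstanceAs (IsProbabilityMeasure haarAddCircle)

/-- `L²` of the unit circle (parametrised by `ℝ/ℤ`) with normalised arc length measure -/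
abbrev L2 : Type := Lp ℂ 2 μ

/-- the underlying function of an element of `L²` -/
noncomputable def fn (f : L2) : AddCircle (1 : ℝ) → ℂ := f

/-- the point `z = exp (2 π i t)` of the unit circle -/
noncomputable def pt (t : AddCircle (1 : ℝ)) : ℂ := fourier 1 t

/-- `z ^ n` as an element of `L²` -/
noncomputable def zpow (n : ℤ) : L2 := (fourierLp (T := 1) 2 n : Lp ℂ 2 haarAddCircle)

/-- the Hardy space `H²`: the elements of `L²` orthogonal to all `z ^ n`, `n < 0` -/
noncomputable def H2 : Submodule ℂ L2 :=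
  (Submodule.span ℂ {g : L2 | ∃ n : ℤ, n < 0 ∧ g = zpow n})ᗮ

/-- `g = Θ h` almost everywhere -/
def IsProd (Θ h g : L2) : Prop := fn g =ᵐ[μ] fun t => fn Θ t * fn h t

/-- `Θ H²` (for inner `Θ` the set of products `Θ h`, `h ∈ H²`, is already a subspace) -/
noncomputable def mulH2 (Θ : L2) : Submodule ℂ L2 :=
  Submodule.span ℂ {g : L2 | ∃ h ∈ H2, IsProd Θ h g}

/-- the model space `K_Θ = H² ⊖ Θ H²` -/
noncomputable def modelSpace (Θ : L2) : Submodule ℂ L2 := H2 ⊓ (mulH2 Θ)ᗮ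

/-- inner functions -/
structure IsInner (Θ : L2) : Prop where
  hardy : Θ ∈ H2
  unimodular : ∀ᵐ t ∂μ, ‖fn Θ t‖ = 1

/-- elements of `L^∞` -/
def IsBdd (f : L2) : Prop := ∃ C : ℝ, ∀ᵐ t ∂μ, ‖fn f t‖ ≤ C

/-- `p` is the orthogonal projection of `w` on `K` -/
def IsProj (K : Submodule ℂ L2) (w p : L2) : Prop := p ∈ K ∧ ∀ g ∈ K, inner ℂ g (w - p) = 0

/-- `q = A_φ^Θ f`, the value at `f ∈ K_Θ` of the truncated Toeplitz operator with symbol `φ` -/
def IsTTOValue (Θ φ f q : L2) : Prop := ∃ w : L2, IsProd φ f w ∧ IsProj (modelSpace Θ) w q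

/-- `U` is a linear isometry of `ℂ ^ n` (with the Euclidean norm) onto `K_Θ` -/
structure IsUnitaryOnto {n : ℕ} (U : (Fin n → ℂ) → L2) (Θ : L2) : Prop where
  add : ∀ x y, U (x + y) = U x + U y
  smul : ∀ (c : ℂ) (x : Fin n → ℂ), U (c • x) = c • U x
  isometry : ∀ x, ‖U x‖ ^ 2 = ∑ i, ‖x i‖ ^ 2
  onto : ∀ f : L2, f ∈ modelSpace Θ ↔ ∃ x, U x = f

/-- the matrix `M` is unitarily equivalent to a truncated Toeplitz operator: there are an inner
function `Θ`, a symbol `φ ∈ L^∞` and a linear isometry `U` of `ℂ ^ n` onto `K_Θ` with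
`U M x = A_φ^Θ U x` for all `x` -/
def UnitarilyTTO {n : ℕ} (M : Matrix (Fin n) (Fin n) ℂ) : Prop :=
  ∃ Θ φ : L2, IsInner Θ ∧ IsBdd φ ∧ ∃ U : (Fin n → ℂ) → L2, IsUnitaryOnto U Θ ∧
    ∀ x : Fin n → ℂ, IsTTOValue Θ φ (U x) (U (M.mulVec x))

/-- the finite Blaschke product with the zeros `a i` and the factor `c` -/
noncomputable def blaschke {n : ℕ} (c : ℂ) (a : Fin n → ℂ) (z : ℂ) : ℂ :=
  c * ∏ i, (z - a i) / (1 - conj (a i) * z)

/-- `B` is a finite Blaschke product of degree `n` -/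
def IsBlaschke (n : ℕ) (B : ℂ → ℂ) : Prop :=
  ∃ (c : ℂ) (a : Fin n → ℂ), ‖c‖ = 1 ∧ (∀ i, ‖a i‖ < 1) ∧ B = blaschke c a

/-- `Θ` has the boundary values `B` -/
def HasBoundary (Θ : L2) (B : ℂ → ℂ) : Prop := fn Θ =ᵐ[μ] fun t => B (pt t)

/-- the boundary kernel `k_ζ` -/
noncomputable def kern (B : ℂ → ℂ) (α ζ z : ℂ) : ℂ := (1 - conj α * B z) / (1 - conj ζ * z)

/-- `ζ` is a solution of `B ζ = α` on the circle and `w` is a square root of `α conj ζ` -/
structure IsClarkPoint (B : ℂ → ℂ) (α ζ w : ℂ) : Prop where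
  norm_ζ : ‖ζ‖ = 1
  solution : B ζ = α
  norm_w : ‖w‖ = 1
  sq_w : w ^ 2 = α * conj ζ

/-- `e` is the norm-one positive multiple of `w k_ζ` -/
structure IsClarkVector (Θ : L2) (B : ℂ → ℂ) (α ζ w : ℂ) (e : L2) : Prop where
  mem : e ∈ modelSpace Θ
  norm_e : ‖e‖ = 1
  kernel : ∃ r : ℝ, 0 < r ∧ HasBoundary e fun z => w * r * kern B α ζ z

/-- `e` is a modified Aleksandrov-Clark basis of `K_Θ`: `Θ` is a finite Blaschke product `B` of
degree `n`, `ζ_1, …, ζ_n` are the distinct solutions of `B ζ = α` on the circle, `w_j` is a square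
root of `α conj ζ_j`, and `e_j` is the norm-one positive multiple of `w_j k_(ζ_j)`. -/
def IsModifiedClarkBasis {n : ℕ} (Θ : L2) (e : Fin n → L2) : Prop :=
  ∃ (B : ℂ → ℂ) (α : ℂ) (ζ w : Fin n → ℂ), IsBlaschke n B ∧ HasBoundary Θ B ∧ ‖α‖ = 1 ∧
    Function.Injective ζ ∧
    ∀ j, IsClarkPoint B α (ζ j) (w j) ∧ IsClarkVector Θ B α (ζ j) (w j) (e j)

/-- `M` is the matrix of `A_φ^Θ` with respect to `e` -/
def IsMatrix {n : ℕ} (Θ φ : L2) (e : Fin n → L2) (M : Matrix (Fin n) (Fin n) ℂ) : Prop :=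
  ∀ i j, ∃ q : L2, IsTTOValue Θ φ (e j) q ∧ M i j = inner ℂ (e i) q

/-! ### calculus in `L²` -/

lemma inner_eq (f g : L2) : inner ℂ f g = ∫ t, conj (fn f t) * fn g t ∂μ := by
  let f' : Lp ℂ 2 μ := f
  let g' : Lp ℂ 2 μ := g
  change inner ℂ f' g' = _
  rw [MeasureTheory.L2.inner_def]
  apply integral_congr_ae
  filter_upwards with t
  rw [RCLike.inner_apply, mul_comm]
  rfl

lemma inner_eq' {f g : L2} {f' g' : AddCircle (1 : ℝ) → ℂ} (hf : fn f =ᵐ[μ] f')
    (hg : fn g =ᵐ[μ] g') : inner ℂ f g = ∫ t, conj (f' t) * g' t ∂μ := by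
  rw [inner_eq]
  apply integral_congr_ae
  filter_upwards [hf, hg] with t h1 h2
  rw [h1, h2]

lemma fn_mem (f : L2) : MemLp (fn f) 2 μ := Lp.memLp (f : Lp ℂ 2 μ)

/-- the element of `L²` given by a function -/
noncomputable def mk (u : AddCircle (1 : ℝ) → ℂ) (hu : MemLp u 2 μ) : L2 := (hu.toLp : Lp ℂ 2 μ)

lemma mk_ae (u : AddCircle (1 : ℝ) → ℂ) (hu : MemLp u 2 μ) : fn (mk u hu) =ᵐ[μ] u :=
  hu.coeFn_toLp

lemma ext_ae {f g : L2} (h : fn f =ᵐ[μ] fn g) : f = g :=
  Lp.ext (f := (f : Lp ℂ 2 μ)) (g := (g : Lp ℂ 2 μ)) h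

lemma add_ae (f g : L2) : fn (f + g) =ᵐ[μ] fun t => fn f t + fn g t :=
  Lp.coeFn_add (f : Lp ℂ 2 μ) (g : Lp ℂ 2 μ)

lemma smul_ae (c : ℂ) (f : L2) : fn (c • f) =ᵐ[μ] fun t => c * fn f t :=
  Lp.coeFn_smul c (f : Lp ℂ 2 μ)

lemma zpow_ae (n : ℤ) : fn (zpow n) =ᵐ[μ] fun t => fourier n t :=
  coeFn_fourierLp 2 n

lemma zpow_inner (m n : ℤ) : inner ℂ (zpow m) (zpow n) = if m = n then (1 : ℂ) else 0 :=
  orthonormal_iff_ite.mp (@orthonormal_fourier 1 _) m n

lemma ext_coeff (f : L2) (h : ∀ n, inner ℂ (zpow n) f = 0) : f = 0 := by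
  have h1 : ((fourierBasis (T := 1)).repr (f : Lp ℂ 2 haarAddCircle)) = 0 := by
    ext n
    rw [HilbertBasis.repr_apply_apply, coe_fourierBasis]
    exact h n
  have h2 := (fourierBasis (T := 1)).repr.injective (h1.trans (map_zero _).symm)
  exact h2

lemma norm_fourier' (k : ℤ) (t : AddCircle (1 : ℝ)) : ‖(fourier k t : ℂ)‖ = 1 := by
  rw [fourier_apply]; exact Circle.norm_coe _

lemma mem_orth_span {S : Set L2} (f : L2) :
    f ∈ (Submodule.span ℂ S)ᗮ ↔ ∀ g ∈ S, inner ℂ g f = 0 := by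
  rw [Submodule.mem_orthogonal]
  refine ⟨fun h g hg => h g (Submodule.subset_span hg), fun h g hg => ?_⟩
  induction hg using Submodule.span_induction with
  | mem z hz => exact h z hz
  | zero => simp
  | add a b _ _ ha hb => rw [inner_add_left, ha, hb, add_zero]
  | smul c a _ ha => rw [inner_smul_left, ha, mul_zero]

lemma mem_H2 (f : L2) : f ∈ H2 ↔ ∀ n : ℤ, n < 0 → inner ℂ (zpow n) f = 0 := by
  rw [H2, mem_orth_span]
  constructor
  · intro h n hn
    exact h _ ⟨n, hn, rfl⟩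
  · rintro h g ⟨n, hn, rfl⟩
    exact h n hn

lemma mem_K3 (f : L2) : f ∈ modelSpace (zpow 3) ↔
    ∀ n : ℤ, (n < 0 ∨ 3 ≤ n) → inner ℂ (zpow n) f = 0 := by
  rw [modelSpace, Submodule.mem_inf, mem_H2, mulH2, mem_orth_span]
  constructor
  · rintro ⟨h1, h2⟩ n (hn | hn)
    · exact h1 n hn
    · refine h2 _ ⟨zpow (n - 3), ?_, ?_⟩
      · rw [mem_H2]
        intro m hm
        rw [zpow_inner, if_neg (by omega)]
      · filter_upwards [zpow_ae n, zpow_ae 3, zpow_ae (n - 3)] with t h1 h2 h3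
        rw [h1, h2, h3, ← fourier_add]
        congr 1
        ring_nf
  · intro h
    refine ⟨fun n hn => h n (Or.inl hn), ?_⟩
    rintro g ⟨u, hu, hgu⟩
    have hm : MemLp (fun t => fourier (-3) t * fn f t) 2 μ := by
      refine MemLp.of_le_mul (c := 1) (fn_mem f)
        ((fourier (-3)).continuous.aestronglyMeasurable.mul (fn_mem f).1) ?_
      filter_upwards with t
      rw [norm_mul, norm_fourier']
    have hw := mk_ae _ hm
    set w : L2 := mk _ hm with hwdef
    have h1 : inner ℂ g f = inner ℂ u w := by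
      have hgu' : fn g =ᵐ[μ] fun t => fourier 3 t * fn u t := by
        filter_upwards [hgu, zpow_ae 3] with t h1 h2
        rw [h1, h2]
      rw [inner_eq' hgu' (Filter.EventuallyEq.refl _ _),
        inner_eq' (Filter.EventuallyEq.refl _ _) hw]
      apply integral_congr_ae
      filter_upwards with t
      rw [map_mul, ← fourier_neg]
      ring
    have h4 : ∀ n : ℤ, 0 ≤ n → inner ℂ (zpow n) w = 0 := by
      intro n hn
      rw [← h (n + 3) (Or.inr (by omega)), inner_eq' (zpow_ae n) hw,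
        inner_eq' (zpow_ae (n + 3)) (Filter.EventuallyEq.refl _ _)]
      apply integral_congr_ae
      filter_upwards with t
      rw [← fourier_neg, ← fourier_neg, ← mul_assoc, ← fourier_add]
      congr 2
      ring_nf
    rw [h1]
    let u' : Lp ℂ 2 (haarAddCircle : Measure (AddCircle (1 : ℝ))) := u
    let w' : Lp ℂ 2 (haarAddCircle : Measure (AddCircle (1 : ℝ))) := w
    have h5 : inner ℂ u' w' = 0 := by
      rw [← (fourierBasis (T := 1)).tsum_inner_mul_inner u' w']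
      have h2 : ∀ n : ℤ, inner ℂ u' (fourierBasis n) * inner ℂ (fourierBasis n) w' = 0 := by
        intro n
        rw [coe_fourierBasis]
        by_cases hn : n < 0
        · have h3 := (mem_H2 u).mp hu n hn
          have h4 : inner ℂ u (zpow n) = 0 := by
            rw [← inner_conj_symm, h3, map_zero]
          change inner ℂ u (zpow n) * _ = 0
          rw [h4, zero_mul]
        · change _ * inner ℂ (zpow n) w = 0
          rw [h4 n (by omega), mul_zero]
      simp only [h2, tsum_zero]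
    exact h5

lemma isInner_z3 : IsInner (zpow 3) := by
  refine ⟨?_, ?_⟩
  · rw [mem_H2]
    intro n hn
    rw [zpow_inner, if_neg (by omega)]
  · filter_upwards [zpow_ae 3] with t ht
    rw [ht, norm_fourier']

/-! ### the matrix is unitarily equivalent to a truncated Toeplitz operator -/

/-- the matrix -/
noncomputable def M0 : Matrix (Fin 3) (Fin 3) ℂ := !![0, 1, 0; 1, 0, I; 0, I, 0]

/-- `1 / √2` -/
noncomputable def s2 : ℂ := ((1 / Real.sqrt 2 : ℝ) : ℂ)

lemma s2_sq : s2 * s2 = 1 / 2 := by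
  rw [s2, ← ofReal_mul, div_mul_div_comm, Real.mul_self_sqrt (by norm_num)]
  norm_num

lemma s2_conj : conj s2 = s2 := conj_ofReal _

/-- the image of a vector -/
noncomputable def V (x : Fin 3 → ℂ) : L2 :=
  (s2 * (x 0 + I * x 2)) • zpow 0 + x 1 • zpow 1 + (s2 * (x 0 - I * x 2)) • zpow 2

lemma V_coeff (x : Fin 3 → ℂ) (n : ℤ) : inner ℂ (zpow n) (V x) =
    (if n = 0 then s2 * (x 0 + I * x 2) else 0) + (if n = 1 then x 1 else 0) +
      (if n = 2 then s2 * (x 0 - I * x 2) else 0) := by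
  rw [V]
  simp only [inner_add_right, inner_smul_right, zpow_inner, mul_ite, mul_one, mul_zero]

lemma V_norm (x : Fin 3 → ℂ) : ‖V x‖ ^ 2 = ∑ i, ‖x i‖ ^ 2 := by
  have h1 : (inner ℂ (V x) (V x) : ℂ) = x 0 * conj (x 0) + x 1 * conj (x 1) + x 2 * conj (x 2) := by
    conv_lhs => rw [show inner ℂ (V x) (V x) = inner ℂ ((s2 * (x 0 + I * x 2)) • zpow 0 +
      x 1 • zpow 1 + (s2 * (x 0 - I * x 2)) • zpow 2) (V x) from rfl]
    simp only [inner_add_left, inner_smul_left, V_coeff]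
    simp only [map_mul, map_add, map_sub, s2_conj, conj_I]
    norm_num
    linear_combination (2 * (x 0 * conj (x 0)) - 2 * I ^ 2 * (x 2 * conj (x 2))) * s2_sq -
      (x 2 * conj (x 2)) * I_sq
  rw [inner_self_eq_norm_sq_to_K, mul_conj, mul_conj, mul_conj, normSq_eq_norm_sq,
    normSq_eq_norm_sq, normSq_eq_norm_sq] at h1
  rw [Fin.sum_univ_three]
  apply Complex.ofReal_injective
  push_cast
  push_cast at h1
  exact h1

lemma V_add (x y : Fin 3 → ℂ) : V (x + y) = V x + V y := by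
  simp only [V, Pi.add_apply, mul_add, add_smul, mul_sub, sub_smul]
  abel

lemma V_smul (c : ℂ) (x : Fin 3 → ℂ) : V (c • x) = c • V x := by
  have h1 : s2 * (c * x 0 + I * (c * x 2)) = c * (s2 * (x 0 + I * x 2)) := by ring
  have h2 : s2 * (c * x 0 - I * (c * x 2)) = c * (s2 * (x 0 - I * x 2)) := by ring
  simp only [V, Pi.smul_apply, smul_eq_mul, smul_add, smul_smul]
  rw [h1, h2]

lemma V_mem (x : Fin 3 → ℂ) : V x ∈ modelSpace (zpow 3) := by
  rw [mem_K3]
  intro n hn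
  rw [V_coeff, if_neg (by omega), if_neg (by omega), if_neg (by omega)]
  simp

lemma uetto : UnitarilyTTO M0 := by
  refine ⟨zpow 3, (Real.sqrt 2 : ℂ) • zpow 1, isInner_z3, ⟨Real.sqrt 2, ?_⟩, V,
    ⟨V_add, V_smul, V_norm, ?_⟩, ?_⟩
  · filter_upwards [smul_ae (Real.sqrt 2 : ℂ) (zpow 1), zpow_ae 1] with t h1 h2
    rw [h1, h2, norm_mul, norm_fourier', mul_one, norm_real, Real.norm_of_nonneg (Real.sqrt_nonneg _)]
  · intro f
    constructor
    · intro hf
      rw [mem_K3] at hf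
      have h2 : s2 ≠ 0 := fun h => by
        have := s2_sq
        rw [h] at this
        norm_num at this
      set a := (inner ℂ (zpow 0) f : ℂ)
      set b := (inner ℂ (zpow 1) f : ℂ)
      set c := (inner ℂ (zpow 2) f : ℂ)
      refine ⟨![s2 * (a + c), b, -I * s2 * (a - c)], ?_⟩
      rw [← sub_eq_zero]
      apply ext_coeff
      intro n
      rw [inner_sub_right, V_coeff]
      have e1 : s2 * (s2 * (a + c) + I * (-I * s2 * (a - c))) = a := by
        linear_combination (2 * a) * s2_sq - (s2 * s2 * (a - c)) * I_sq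
      have e2 : s2 * (s2 * (a + c) - I * (-I * s2 * (a - c))) = c := by
        linear_combination (2 * c) * s2_sq + (s2 * s2 * (a - c)) * I_sq
      simp only [Matrix.cons_val_zero, Matrix.cons_val_one, Matrix.cons_val]
      rw [e1, e2]
      by_cases h : n < 0 ∨ 3 ≤ n
      · rw [hf n h, if_neg (by omega), if_neg (by omega), if_neg (by omega)]
        simp
      · have h3 : n = 0 ∨ n = 1 ∨ n = 2 := by omega
        rcases h3 with rfl | rfl | rfl
        · simp [a]
        · simp [b]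
        · simp [c]
    · rintro ⟨x, rfl⟩
      exact V_mem x
  · intro x
    -- the product
    obtain ⟨w, hwd⟩ : ∃ w : L2, w = ((Real.sqrt 2 : ℂ) * (s2 * (x 0 + I * x 2))) • zpow 1 +
      ((Real.sqrt 2 : ℂ) * x 1) • zpow 2 + ((Real.sqrt 2 : ℂ) * (s2 * (x 0 - I * x 2))) • zpow 3 :=
      ⟨_, rfl⟩
    have hs : (Real.sqrt 2 : ℂ) * s2 = 1 := by
      rw [s2, ← ofReal_mul]
      norm_num
    refine ⟨w, ?_, V_mem _, ?_⟩
    · have h1 := add_ae (((Real.sqrt 2 : ℂ) * (s2 * (x 0 + I * x 2))) • zpow 1 +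
        ((Real.sqrt 2 : ℂ) * x 1) • zpow 2) (((Real.sqrt 2 : ℂ) * (s2 * (x 0 - I * x 2))) • zpow 3)
      have h2 := add_ae (((Real.sqrt 2 : ℂ) * (s2 * (x 0 + I * x 2))) • zpow 1)
        (((Real.sqrt 2 : ℂ) * x 1) • zpow 2)
      have h3 := add_ae ((s2 * (x 0 + I * x 2)) • zpow 0 + x 1 • zpow 1)
        ((s2 * (x 0 - I * x 2)) • zpow 2)
      have h4 := add_ae ((s2 * (x 0 + I * x 2)) • zpow 0) (x 1 • zpow 1)
      filter_upwards [h1, h2, h3, h4, smul_ae ((Real.sqrt 2 : ℂ) * (s2 * (x 0 + I * x 2))) (zpow 1),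
        smul_ae ((Real.sqrt 2 : ℂ) * x 1) (zpow 2),
        smul_ae ((Real.sqrt 2 : ℂ) * (s2 * (x 0 - I * x 2))) (zpow 3),
        smul_ae (s2 * (x 0 + I * x 2)) (zpow 0), smul_ae (x 1) (zpow 1),
        smul_ae (s2 * (x 0 - I * x 2)) (zpow 2), smul_ae (Real.sqrt 2 : ℂ) (zpow 1),
        zpow_ae 0, zpow_ae 1, zpow_ae 2, zpow_ae 3] with
        t a1 a2 a3 a4 b1 b2 b3 b4 b5 b6 b7 c0 c1 c2 c3
      have d2 : (fourier 2 t : ℂ) = fourier 1 t * fourier 1 t := by rw [← fourier_add]; norm_num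
      have d3 : (fourier 3 t : ℂ) = fourier 1 t * fourier 2 t := by rw [← fourier_add]; norm_num
      rw [hwd, a1, a2, b1, b2, b3, b7, V, a3, a4, b4, b5, b6, c0, c1, c2, c3,
        fourier_zero, d3, d2]
      ring
    · intro g hg
      have hg3 : inner ℂ g (zpow 3) = (0 : ℂ) := by
        rw [← inner_conj_symm, (mem_K3 _).mp hg 3 (Or.inr le_rfl), map_zero]
      have e0 : M0.mulVec x 0 = x 1 := by
        simp [M0, Matrix.mulVec, dotProduct, Fin.sum_univ_three]
      have e1 : M0.mulVec x 1 = x 0 + I * x 2 := by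
        simp [M0, Matrix.mulVec, dotProduct, Fin.sum_univ_three]
      have e2 : M0.mulVec x 2 = I * x 1 := by
        simp [M0, Matrix.mulVec, dotProduct, Fin.sum_univ_three]
      have hw : w - V (M0.mulVec x) = ((Real.sqrt 2 : ℂ) * (s2 * (x 0 - I * x 2))) • zpow 3 := by
        rw [V, e0, e1, e2, hwd]
        have f1 : s2 * (x 1 + I * (I * x 1)) = 0 := by
          linear_combination (s2 * x 1) * I_sq
        have f2 : s2 * (x 1 - I * (I * x 1)) = (Real.sqrt 2 : ℂ) * x 1 := by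
          have h5 : (Real.sqrt 2 : ℂ) = 2 * s2 := by
            linear_combination (-2 * (Real.sqrt 2 : ℂ)) * s2_sq + 2 * s2 * hs
          rw [h5]
          linear_combination (- s2 * x 1) * I_sq
        have f3 : (Real.sqrt 2 : ℂ) * (s2 * (x 0 + I * x 2)) = x 0 + I * x 2 := by
          linear_combination (x 0 + I * x 2) * hs
        rw [f1, f2, f3, zero_smul]
        abel
      rw [hw, inner_smul_right, hg3, mul_zero]

/-! ### it is no matrix in a modified Clark basis -/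

lemma unit_mul (z : ℂ) (hz : ‖z‖ = 1) : z * conj z = 1 := by
  rw [mul_conj, normSq_eq_norm_sq, hz]; simp

/-- The relation between three boundary kernels. -/
lemma kernels (z s : ℂ) (ζ : Fin 3 → ℂ) (hz : ‖z‖ = 1) (hζ : ∀ j, ‖ζ j‖ = 1)
    (hs : ∀ j, z = ζ j → s = 0) :
    (1 - ζ 0 * conj (ζ 1)) * (conj (s / (1 - conj (ζ 0) * z)) * (s / (1 - conj (ζ 1) * z))) +
    (1 - ζ 1 * conj (ζ 2)) * (conj (s / (1 - conj (ζ 1) * z)) * (s / (1 - conj (ζ 2) * z))) +
    (1 - ζ 2 * conj (ζ 0)) * (conj (s / (1 - conj (ζ 2) * z)) * (s / (1 - conj (ζ 0) * z))) = 0 := by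
  by_cases h0 : s = 0
  · simp [h0]
  have hne : ∀ j, 1 - conj (ζ j) * z ≠ 0 := by
    intro j hj
    apply h0
    apply hs j
    have h1 : conj (ζ j) * z = 1 := (sub_eq_zero.1 hj).symm
    have h2 := unit_mul (ζ j) (hζ j)
    linear_combination ζ j * h1 - z * h2
  have hne' : ∀ j, 1 - ζ j * conj z ≠ 0 := by
    intro j hj
    apply hne j
    have := congrArg conj hj
    simpa using this
  have hc : ∀ j, conj (s / (1 - conj (ζ j) * z)) = conj s / (1 - ζ j * conj z) := by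
    intro j
    simp
  have hrel : ∀ j, 1 - ζ j * conj z = - (ζ j * conj z) * (1 - conj (ζ j) * z) := by
    intro j
    have h1 := unit_mul z hz
    have h2 := unit_mul (ζ j) (hζ j)
    linear_combination (- ζ j * conj (ζ j)) * h1 - h2
  have hz0 : conj z ≠ 0 := by
    intro h
    have := unit_mul z hz
    rw [h, mul_zero] at this
    exact zero_ne_one this
  have hζ0 : ∀ j, ζ j ≠ 0 := by
    intro j h
    have := unit_mul (ζ j) (hζ j)
    rw [h, zero_mul] at this
    exact zero_ne_one this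
  have a0 := hne 0
  have a1 := hne 1
  have a2 := hne 2
  have b0 := hζ0 0
  have b1 := hζ0 1
  have b2 := hζ0 2
  have u0 := unit_mul (ζ 0) (hζ 0)
  have u1 := unit_mul (ζ 1) (hζ 1)
  have u2 := unit_mul (ζ 2) (hζ 2)
  rw [hc, hc, hc, hrel, hrel, hrel]
  have c0 : conj (ζ 0) = (ζ 0)⁻¹ := eq_inv_of_mul_eq_one_left (by rw [mul_comm]; exact u0)
  have c1 : conj (ζ 1) = (ζ 1)⁻¹ := eq_inv_of_mul_eq_one_left (by rw [mul_comm]; exact u1)
  have c2 : conj (ζ 2) = (ζ 2)⁻¹ := eq_inv_of_mul_eq_one_left (by rw [mul_comm]; exact u2)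
  rw [c0] at a0 ⊢
  rw [c1] at a1 ⊢
  rw [c2] at a2 ⊢
  have a0' : ζ 0 - z ≠ 0 := fun h => a0 (by field_simp; linear_combination h)
  have a1' : ζ 1 - z ≠ 0 := fun h => a1 (by field_simp; linear_combination h)
  have a2' : ζ 2 - z ≠ 0 := fun h => a2 (by field_simp; linear_combination h)
  have d0 : 1 - (ζ 0)⁻¹ * z = (ζ 0 - z) / ζ 0 := by field_simp
  have d1 : 1 - (ζ 1)⁻¹ * z = (ζ 1 - z) / ζ 1 := by field_simp
  have d2 : 1 - (ζ 2)⁻¹ * z = (ζ 2 - z) / ζ 2 := by field_simp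
  rw [d0, d1, d2]
  field_simp
  ring

/-- The coefficient is purely imaginary. -/
lemma coeff_imag (α ζi ζj wi wj : ℂ) (ri rj : ℝ) (hα : ‖α‖ = 1) (hζi : ‖ζi‖ = 1) (hζj : ‖ζj‖ = 1)
    (hwi : ‖wi‖ = 1) (hwj : ‖wj‖ = 1) (h1 : wi ^ 2 = α * conj ζi) (h2 : wj ^ 2 = α * conj ζj) :
    ((1 - ζi * conj ζj) * (wi * conj wj) / (ri * rj)).re = 0 := by
  have key : (1 - ζi * conj ζj) * (wi * conj wj) +
      conj ((1 - ζi * conj ζj) * (wi * conj wj)) = 0 := by
    simp only [map_mul, map_sub, map_one, conj_conj]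
    have u1 := unit_mul α hα
    have v1 := unit_mul ζi hζi
    have v2 := unit_mul ζj hζj
    have x1 := unit_mul wi hwi
    have x2 := unit_mul wj hwj
    have e1 : ζi * wi ^ 2 = α := by linear_combination ζi * h1 + α * v1
    have e2 : ζj * wj ^ 2 = α := by linear_combination ζj * h2 + α * v2
    have e1' : ζi = α * conj wi ^ 2 := by
      linear_combination conj wi ^ 2 * e1 - (ζi * (wi * conj wi + 1)) * x1
    have e2' : ζj = α * conj wj ^ 2 := by
      linear_combination conj wj ^ 2 * e2 - (ζj * (wj * conj wj + 1)) * x2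
    have e3 : conj ζi = conj α * wi ^ 2 := by rw [e1']; simp
    have e4 : conj ζj = conj α * wj ^ 2 := by rw [e2']; simp
    rw [e3, e4, e1', e2']
    have t1 : (α * conj wi ^ 2) * (conj α * wj ^ 2) * (wi * conj wj) = conj wi * wj := by
      linear_combination (conj wi ^ 2 * wj ^ 2 * wi * conj wj) * u1 +
        (conj wi * wj * (wj * conj wj)) * x1 + (conj wi * wj) * x2
    have t2 : (conj α * wi ^ 2) * (α * conj wj ^ 2) * (conj wi * wj) = wi * conj wj := by
      linear_combination (conj wj ^ 2 * wi ^ 2 * wj * conj wi) * u1 +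
        (conj wj * wi * (wi * conj wi)) * x2 + (conj wj * wi) * x1
    linear_combination -t1 - t2
  have h3 : (((1 - ζi * conj ζj) * (wi * conj wj))).re = 0 := by
    have := congrArg Complex.re key
    rw [add_re, conj_re, zero_re] at this
    linarith
  have h4 : ((ri : ℂ) * rj) = ((ri * rj : ℝ) : ℂ) := by push_cast; ring
  rw [h4, div_ofReal_re, h3, zero_div]

lemma not_clark (Θ φ : L2) (e : Fin 3 → L2) (he : IsModifiedClarkBasis Θ e)
    (hM : IsMatrix Θ φ e M0) : False := by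
  obtain ⟨B, α, ζ, w, -, -, hCα, hCinj, hC'⟩ := he
  have hCp : ∀ j, IsClarkPoint B α (ζ j) (w j) := fun j => (hC' j).1
  choose r hr hker using fun j => (hC' j).2.kernel
  -- the entries as integrals
  have hent : ∀ i j, ∃ W : L2, IsProd φ (e j) W ∧ M0 i j = inner ℂ (e i) W := by
    intro i j
    obtain ⟨q, ⟨W, hW, hq⟩, hij⟩ := hM i j
    refine ⟨W, hW, ?_⟩
    have := hq.2 _ (hC' i).2.mem
    rw [inner_sub_right] at this
    rw [hij]
    exact (sub_eq_zero.1 this).symm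
  choose W hW hMW using hent
  have hint : ∀ i j, Integrable (fun t => conj (fn (e i) t) * fn (W i j) t) μ := by
    intro i j
    have := L2.integrable_inner (𝕜 := ℂ) (e i : Lp ℂ 2 μ) (W i j : Lp ℂ 2 μ)
    refine this.congr ?_
    filter_upwards with t
    rw [RCLike.inner_apply, mul_comm]
    rfl
  set κ : Fin 3 → Fin 3 → ℂ := fun i j =>
    (1 - ζ i * conj (ζ j)) * (w i * conj (w j)) / (r i * r j) with hκ
  have hsum : κ 0 1 * M0 0 1 + κ 1 2 * M0 1 2 + κ 2 0 * M0 2 0 = 0 := by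
    have I1 := (hint 0 1).const_mul (κ 0 1)
    have I2 := (hint 1 2).const_mul (κ 1 2)
    have I3 := (hint 2 0).const_mul (κ 2 0)
    have J1 := integral_add I1 I2
    have J2 := integral_add (I1.add I2) I3
    simp only [Pi.add_apply] at J2
    rw [hMW 0 1, hMW 1 2, hMW 2 0, inner_eq, inner_eq, inner_eq, ← integral_const_mul,
      ← integral_const_mul, ← integral_const_mul, ← J1, ← J2]
    apply integral_eq_zero_of_ae
    filter_upwards [hW 0 1, hW 1 2, hW 2 0, hker 0, hker 1, hker 2] with t a1 a2 a3 k0 k1 k2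
    simp only [Pi.zero_apply]
    rw [a1, a2, a3, k0, k1, k2, kern, kern, kern]
    have hk := kernels (pt t) (1 - conj α * B (pt t)) ζ (norm_fourier' 1 t) (fun j => (hCp j).norm_ζ) (by
      intro j hj
      rw [hj, (hCp j).solution, mul_comm, unit_mul α hCα, sub_self])
    have r0 : (r 0 : ℂ) ≠ 0 := by exact_mod_cast (hr 0).ne'
    have r1 : (r 1 : ℂ) ≠ 0 := by exact_mod_cast (hr 1).ne'
    have r2 : (r 2 : ℂ) ≠ 0 := by exact_mod_cast (hr 2).ne'
    have w0 := unit_mul (w 0) (hCp 0).norm_w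
    have w1 := unit_mul (w 1) (hCp 1).norm_w
    have w2 := unit_mul (w 2) (hCp 2).norm_w
    set K0 := (1 - conj α * B (pt t)) / (1 - conj (ζ 0) * pt t)
    set K1 := (1 - conj α * B (pt t)) / (1 - conj (ζ 1) * pt t)
    set K2 := (1 - conj α * B (pt t)) / (1 - conj (ζ 2) * pt t)
    have g : ∀ (i j : Fin 3) (Ki Kj : ℂ), (r i : ℂ) ≠ 0 → (r j : ℂ) ≠ 0 → w i * conj (w i) = 1 →
        w j * conj (w j) = 1 →
        κ i j * (conj (w i * r i * Ki) * (fn φ t * (w j * r j * Kj))) =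
          fn φ t * ((1 - ζ i * conj (ζ j)) * (conj Ki * Kj)) := by
      intro i j Ki Kj hi hj wi wj
      simp only [hκ, map_mul, conj_ofReal]
      field_simp
      linear_combination (fn φ t * ((1 - ζ i * conj (ζ j)) * (conj Ki * Kj))) *
        ((w j * conj (w j)) * wi + wj)
    rw [g 0 1 K0 K1 r0 r1 w0 w1, g 1 2 K1 K2 r1 r2 w1 w2, g 2 0 K2 K0 r2 r0 w2 w0]
    linear_combination fn φ t * hk
  have m1 : M0 0 1 = 1 := by simp [M0]
  have m2 : M0 1 2 = I := by simp [M0]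
  have m3 : M0 2 0 = 0 := by simp [M0]
  rw [m1, m2, m3] at hsum
  have i1 : (κ 0 1).re = 0 := coeff_imag α (ζ 0) (ζ 1) (w 0) (w 1) (r 0) (r 1) hCα
    (hCp 0).norm_ζ (hCp 1).norm_ζ (hCp 0).norm_w (hCp 1).norm_w (hCp 0).sq_w (hCp 1).sq_w
  have i2 : (κ 1 2).re = 0 := coeff_imag α (ζ 1) (ζ 2) (w 1) (w 2) (r 1) (r 2) hCα
    (hCp 1).norm_ζ (hCp 2).norm_ζ (hCp 1).norm_w (hCp 2).norm_w (hCp 1).sq_w (hCp 2).sq_w
  have h1 : (κ 0 1).im = 0 := by
    have := congrArg Complex.im hsum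
    simp only [mul_one, mul_zero, add_zero, add_im, mul_im, I_re, I_im, zero_im] at this
    rw [i2] at this
    simpa using this
  have h2 : κ 0 1 = 0 := Complex.ext i1 h1
  have r0 : (r 0 : ℂ) ≠ 0 := by exact_mod_cast (hr 0).ne'
  have r1 : (r 1 : ℂ) ≠ 0 := by exact_mod_cast (hr 1).ne'
  have w0 := unit_mul (w 0) (hCp 0).norm_w
  have w1 := unit_mul (w 1) (hCp 1).norm_w
  have h3 : (1 - ζ 0 * conj (ζ 1)) * (w 0 * conj (w 1)) = 0 := by
    simp only [hκ] at h2
    rw [div_eq_zero_iff] at h2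
    rcases h2 with h | h
    · exact h
    · exact absurd h (mul_ne_zero r0 r1)
  have h4 : 1 - ζ 0 * conj (ζ 1) = 0 := by
    linear_combination (conj (w 0) * w 1) * h3 - (1 - ζ 0 * conj (ζ 1)) * (w 1 * conj (w 1)) * w0 -
      (1 - ζ 0 * conj (ζ 1)) * w1
  have h5 : ζ 0 = ζ 1 := by
    have u1 := unit_mul (ζ 1) (hCp 1).norm_ζ
    linear_combination (-ζ 1) * h4 + (- ζ 0) * u1
  exact absurd (hCinj h5) (by decide)

/-- **There is a complex symmetric `3 × 3` matrix which is unitarily equivalent to a truncated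
Toeplitz operator, but is not the matrix of one in any modified Aleksandrov-Clark basis.** -/
theorem result : ∃ M : Matrix (Fin 3) (Fin 3) ℂ, M.transpose = M ∧ UnitarilyTTO M ∧
    ¬ ∃ (Θ φ : L2) (e : Fin 3 → L2), IsInner Θ ∧ IsBdd φ ∧ IsModifiedClarkBasis Θ e ∧
      IsMatrix Θ φ e M := by
  refine ⟨M0, ?_, uetto, ?_⟩
  · ext i j
    fin_cases i <;> fin_cases j <;> simp [M0]
  · rintro ⟨Θ, φ, e, -, -, he, hM⟩
    exact not_clark Θ φ e he hM

end Pool.Agent.Results.MP_3119c3_an.NotClark
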